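import Pool.Agent.H632R2.PM.Fin

/-!
# For subquadratic De Morgan formulas, PP is not contained in the polynomial hierarchy
-/

namespace Pool.Agent.Results.MP_a54059_lc.FormulaModel

open H632.PM
open Filter

theorem result :
    (∃ f ∈ PPclass (fun n => Nat.log 2 n + 1) (fun n => n), ∀ m s : ℕ → ℕ,
      (∀ K : ℕ, ∀ᶠ n in atTop, (s n + 1) * (m n + Nat.log 2 n) ^ K ≤ n ^ 2) →
      ∀ p : ℕ, p.Prime → f ∉ PHclass p m s) ∧
    (∀ n m : ℕ, n < 2 ^ m →
      (fun x : Fin n → Bool => n < 2 * ones x) ∈ PPmode m (6 * n) n) ∧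
    (∀ p : ℕ, p.Prime → ∀ (l : List Quant) (m s n : ℕ),
      (fun x : Fin n → Bool => n < 2 * ones x) ∈ Lev p l m s n →
      n ^ 2 ≤ 10 ^ 15 * (s + 1) *
        (3 * p * (l.length + 2) * (m + Nat.log 2 n + 1)) ^ (4 * l.length + 4)) :=
  ⟨⟨_, classes.1, classes.2⟩, fun _ _ h => maj_upper h, maj_bound⟩

end Pool.Agent.Results.MP_a54059_lc.FormulaModel
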