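import Pool.Agent.H620R2.Gauge.Cover
import Pool.Agent.H620R2.Gauge.NonNull
import Pool.Agent.H620R2.Gauge.P
import Pool.Agent.H620R2.Gauge.U2
import Pool.Agent.H943R3.PP.N2
import Pool.Agent.H943R3.PP.N3
import Pool.Agent.H943R3.PP.N4
import Pool.Agent.H943R3.PP.N5

/-!
# How many oracles put `PP` into the polynomial hierarchy?

For every gauge `f`, the set of the oracles `A` such that `PP` relative to `A` is contained in the
polynomial hierarchy relative to `A` is a null set for `f` if and only if for every `ε > 0` there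
are infinitely many `N` with `f N ≤ 2 ^ ((log N) ^ ε)`. The same holds for every set of such
oracles which contains all `A` such that every language in `PSPACE` relative to `A` is
polynomial-time many-one reducible to `A`, for example for the set of the `A` with `P^A = PP^A`.
-/

namespace Pool.Agent.Results.MP_a54059_lc.GaugeThreshold

open Pool.Agent.NPC Pool.Agent.H620R2.Gauge Pool.Agent.H943R3.PP

theorem result (f : ℕ → ℝ) :
    (∀ O : Set Oracle,
      (∀ A : Oracle, (∀ L, IsPSPACE A L → Reduces L {x | A x = true}) → A ∈ O) →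
      (∀ A ∈ O, ∀ L, IsPP A L → IsPH A L) →
      (Null f O ↔
        ∀ ε : ℝ, 0 < ε → ∃ᶠ N : ℕ in Filter.atTop, f N ≤ 2 ^ (Real.logb 2 N) ^ ε)) ∧
    (Null f {A : Oracle | ∀ L, IsPP A L → IsPH A L} ↔
      ∀ ε : ℝ, 0 < ε → ∃ᶠ N : ℕ in Filter.atTop, f N ≤ 2 ^ (Real.logb 2 N) ^ ε) ∧
    (Null f {A : Oracle | ∀ L, IsPP A L ↔ IsP A L} ↔
      ∀ ε : ℝ, 0 < ε → ∃ᶠ N : ℕ in Filter.atTop, f N ≤ 2 ^ (Real.logb 2 N) ^ ε) := by
  have key : ∀ O : Set Oracle,
      (∀ A : Oracle, (∀ L, IsPSPACE A L → Reduces L {x | A x = true}) → A ∈ O) →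
      (∀ A ∈ O, ∀ L, IsPP A L → IsPH A L) →
      (Null f O ↔
        ∀ ε : ℝ, 0 < ε → ∃ᶠ N : ℕ in Filter.atTop, f N ≤ 2 ^ (Real.logb 2 N) ^ ε) := by
    intro O h1 h2
    constructor
    · intro hn ε hε
      by_contra hcon
      rw [Filter.not_frequently] at hcon
      exact not_null f ε hε (hcon.mono fun N h => not_le.1 h) O h1 hn
    · intro hf
      refine null_of_frequently f hf O fun A hA => IsPH.isPHpoly ?_
      rw [parLang_eq]
      exact isPH_ex (h2 A hA _ (exLang_pp A)) _
  refine ⟨key, key _ ?_ ?_, key _ ?_ ?_⟩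
  · intro A hA L hL
    exact (isP_of_reduces (hA L (isPSPACE_of_isPP hL))).isPH
  · intro A hA
    exact hA
  · intro A hA L
    exact ⟨fun hL => isP_of_reduces (hA L (isPSPACE_of_isPP hL)), isPP_of_isP⟩
  · intro A hA L hL
    exact ((hA L).1 hL).isPH

end Pool.Agent.Results.MP_a54059_lc.GaugeThreshold
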