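import Pool.Agent.H599R2.MJ.Low
import Pool.Agent.H599R2.MJ.Up

/-!
# PP versus PH for subquadratic formulas
-/

open H599.MJ in
/-- Majority of `n` bits is defined in the `PP` way by `⌈log₂ n⌉` random bits and a De Morgan
formula with at most `6 n` leaves. But if `(2k+4)δ < ε ≤ 1` then for large `n` it is not defined by
any sequence of at most `k` blocks of `m ≤ n^δ` bits, each block quantified by `∃`, by `∀` or by a
count modulo 3, in front of a function of approximate degree at most `D ≤ n^(1-ε)` or a De Morgan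
formula with at most `D²` leaves. -/
theorem Pool.Agent.Results.MP_a54059_lc.MajorityNotInPH.result
    (k : ℕ) (ε δ : ℝ) (hδ : 0 < δ) (hε : (2 * k + 4) * δ < ε) (hε1 : ε ≤ 1) :
    ∀ᶠ n : ℕ in Filter.atTop, Maj n ∈ PPForm (Nat.clog 2 n) (6 * n) n ∧
      ∀ m D : ℕ, (m : ℝ) ≤ (n : ℝ) ^ δ → (D : ℝ) ≤ (n : ℝ) ^ (1 - ε) →
        ∀ qs : List Qu, qs.length ≤ k → Maj n ∉ Lev D m qs n := by
  set η : ℝ := ε - (2 * k + 4) * δ with hη
  have hη0 : 0 < η := by linarith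
  set C : ℝ := 3 * (54 * 10 ^ 6 * 4 ^ 2 * (2 * (k + 1)) ^ 2 * (24 * (k + 1)) ^ (2 * (k + 1)))
    with hC
  have hev : ∀ᶠ n : ℕ in Filter.atTop, C ≤ (n : ℝ) ^ η :=
    ((tendsto_rpow_atTop hη0).comp tendsto_natCast_atTop_atTop).eventually_ge_atTop C
  have hev2 : ∀ᶠ n : ℕ in Filter.atTop, (2 : ℝ) ≤ (n : ℝ) ^ δ :=
    ((tendsto_rpow_atTop hδ).comp tendsto_natCast_atTop_atTop).eventually_ge_atTop 2
  have hev3 : ∀ᶠ n : ℕ in Filter.atTop, Real.log n ≤ Real.log 2 * (n : ℝ) ^ δ := by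
    have h1 := (isLittleO_log_rpow_atTop hδ).bound (Real.log_pos (by norm_num : (1 : ℝ) < 2))
    have h2 := tendsto_natCast_atTop_atTop (R := ℝ).eventually h1
    filter_upwards [h2] with n hn
    rw [Real.norm_eq_abs, Real.norm_eq_abs,
      abs_of_nonneg (Real.rpow_nonneg (Nat.cast_nonneg n) δ)] at hn
    exact (le_abs_self _).trans hn
  filter_upwards [hev, hev2, hev3, Filter.eventually_ge_atTop 4] with n hn hn2 hn3 hn4
  have hn1R : (1 : ℝ) ≤ n := by exact_mod_cast (by omega : 1 ≤ n)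
  have hn0R : (0 : ℝ) < n := by linarith
  refine ⟨maj_pp n (by omega), fun m D hm hD qs hqs hmem => ?_⟩
  set P : ℝ := (n : ℝ) ^ δ with hP
  set c : ℕ := ⌈P⌉₊ with hc
  have hPc : P ≤ c := Nat.le_ceil P
  have hc2 : 2 ≤ c := by exact_mod_cast hn2.trans hPc
  have hc3 : (c : ℝ) ≤ 2 * P := by
    have := Nat.ceil_lt_add_one (by linarith : 0 ≤ P)
    linarith
  have hmc : m ≤ c := by exact_mod_cast hm.trans hPc
  have hnc : n ≤ 2 ^ c := by
    have h1 : (n : ℝ) ≤ 2 ^ (c : ℝ) := by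
      calc (n : ℝ) = Real.exp (Real.log n) := (Real.exp_log hn0R).symm
        _ ≤ Real.exp (Real.log 2 * P) := Real.exp_le_exp.2 hn3
        _ = 2 ^ P := by rw [Real.rpow_def_of_pos (by norm_num)]
        _ ≤ _ := Real.rpow_le_rpow_of_exponent_le (by norm_num) hPc
    rw [Real.rpow_natCast] at h1
    exact_mod_cast h1
  set D' := max D 1 with hD'
  have hD1 : 1 ≤ D' := le_max_right _ _
  have hDR : (D' : ℝ) ≤ (n : ℝ) ^ (1 - ε) := by
    rw [hD', Nat.cast_max, Nat.cast_one]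
    exact max_le hD (Real.one_le_rpow hn1R (by linarith))
  set h := (k + 1) * c with hh
  have hw : n / 2 * 2 ^ (m * qs.length) ≤ 2 ^ h := by
    have h1 : 2 ^ (m * qs.length) ≤ 2 ^ (c * k) :=
      Nat.pow_le_pow_right (by norm_num) (Nat.mul_le_mul hmc hqs)
    calc n / 2 * 2 ^ (m * qs.length) ≤ 2 ^ c * 2 ^ (c * k) :=
          Nat.mul_le_mul ((Nat.div_le_self n 2).trans hnc) h1
      _ = 2 ^ h := by rw [← pow_add, hh]; congr 1; ring
  have hsize : 54 * 10 ^ 6 * D' * 4 ^ 2 * h ^ 2 *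
      (8 * (h + (qs.length + 1))) ^ (2 * (qs.length + 1)) ≤ n / 2 := by
    have h0 : 54 * 10 ^ 6 * D' * 4 ^ 2 * h ^ 2 * (8 * (h + (qs.length + 1))) ^ (2 * (qs.length + 1))
        ≤ 54 * 10 ^ 6 * D' * 4 ^ 2 * h ^ 2 * (8 * (h + (k + 1))) ^ (2 * (k + 1)) := by
      refine Nat.mul_le_mul_left _ ?_
      calc (8 * (h + (qs.length + 1))) ^ (2 * (qs.length + 1))
          ≤ (8 * (h + (k + 1))) ^ (2 * (qs.length + 1)) := Nat.pow_le_pow_left (by omega) _
        _ ≤ _ := Nat.pow_le_pow_right (by omega) (by omega)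
    refine h0.trans ?_
    have h1 : (3 * (54 * 10 ^ 6 * D' * 4 ^ 2 * h ^ 2 * (8 * (h + (k + 1))) ^ (2 * (k + 1))) : ℝ)
        ≤ n := by
      have hP0 : 0 < P := by linarith
      have hhR : (h : ℝ) ≤ 2 * (k + 1) * P := by
        rw [hh]; push_cast
        have : ((k : ℝ) + 1) * c ≤ (k + 1) * (2 * P) :=
          mul_le_mul_of_nonneg_left hc3 (by positivity)
        linarith
      have h2 : ((h : ℝ) + (k + 1)) ≤ 3 * (k + 1) * P := by
        have : ((k : ℝ) + 1) ≤ (k + 1) * P :=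
          le_mul_of_one_le_right (by positivity) (by linarith)
        linarith
      have h3 : ((n : ℝ) ^ (1 - ε)) * P ^ 2 * P ^ (2 * (k + 1)) * (n : ℝ) ^ η = n := by
        rw [hP, ← Real.rpow_natCast, ← Real.rpow_natCast, ← Real.rpow_mul hn0R.le,
          ← Real.rpow_mul hn0R.le, ← Real.rpow_add hn0R, ← Real.rpow_add hn0R,
          ← Real.rpow_add hn0R]
        have : 1 - ε + δ * ((2 : ℕ) : ℝ) + δ * ((2 * (k + 1) : ℕ) : ℝ) + η = 1 := by
          rw [hη]; push_cast; ring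
        rw [this, Real.rpow_one]
      have hn1e : 0 < (n : ℝ) ^ (1 - ε) := Real.rpow_pos_of_pos hn0R _
      calc (3 * (54 * 10 ^ 6 * D' * 4 ^ 2 * h ^ 2 * (8 * (h + (k + 1))) ^ (2 * (k + 1))) : ℝ)
          ≤ 3 * (54 * 10 ^ 6 * (n : ℝ) ^ (1 - ε) * 4 ^ 2 * (2 * (k + 1) * P) ^ 2 *
              (8 * (3 * (k + 1) * P)) ^ (2 * (k + 1))) := by
            gcongr
        _ = ((n : ℝ) ^ (1 - ε)) * P ^ 2 * P ^ (2 * (k + 1)) * C := by
            have e : (8 * (3 * ((k : ℝ) + 1) * P)) = (24 * (k + 1)) * P := by ring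
            rw [hC, e, mul_pow (24 * ((k : ℝ) + 1))]; ring
        _ ≤ ((n : ℝ) ^ (1 - ε)) * P ^ 2 * P ^ (2 * (k + 1)) * (n : ℝ) ^ η :=
            mul_le_mul_of_nonneg_left hn (by positivity)
        _ = n := h3
    have h2 : 3 * (54 * 10 ^ 6 * D' * 4 ^ 2 * h ^ 2 * (8 * (h + (k + 1))) ^ (2 * (k + 1))) ≤ n := by
      exact_mod_cast h1
    omega
  have hmono : ∀ (qs : List Qu) (n : ℕ), Lev D m qs n ⊆ Lev D' m qs n := by
    intro qs
    induction qs with
    | nil =>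
      rintro n f ⟨g, hg, hf⟩
      refine ⟨g, ?_, hf⟩
      rcases hg with ⟨p, hp, hp'⟩ | ⟨φ, hφ, hg⟩
      · exact Or.inl ⟨p, H599.QB.Deg.mono (le_max_left D 1) hp, hp'⟩
      · exact Or.inr ⟨φ, hφ.trans (Nat.pow_le_pow_left (le_max_left D 1) 2), hg⟩
    | cons q qs ih => exact fun n f ⟨g, hg, hf⟩ => ⟨g, ih _ hg, hf⟩
  refine maj_lower (l := n / 2) (h := h) qs (by omega) (by omega) hD1 ?_ hw hsize
    (hmono qs n hmem)
  calc 2 ≤ c := hc2
    _ ≤ h := by rw [hh]; exact Nat.le_mul_of_pos_left c (Nat.succ_pos k)
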