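import Pool.Agent.H554R2.RK.Main

/-!
# Majority of one-pass programs against Boolean combinations of nondeterministic read-k programs

For all `k` and `s` we give functions of `n` Boolean variables which are the majority of a constant
number `m` of functions computed by read-once branching programs with `O(n)` nodes, with a fixed
order of the variables (a machine of the type `PP` which guesses one of `m` values and reads the
input once), and which are not Boolean combinations of the functions of `s` nondeterministic
read-`k`-times branching programs with fewer than `2 ^ (n / D)` nodes.

The inputs which are accepted by several nondeterministic read-`k`-times programs are covered by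
`2 ^ (ε n)` rectangles (Borodin, Razborov, Smolensky).  The functions are majorities of random
quadratic forms in blocks; on a rectangle all but a bounded number of these forms are independent
and uniformly distributed.

The lemmas were proved together with helper55, helper92, helper143, helper218, helper234, helper259,
helper409, helper431, helper556, helper724, helper819, helper873 (this part), helper19, helper77,
helper79, helper227, helper237, helper406, helper642, helper737 (random partitions, coefficients,
discrepancy).
-/

set_option autoImplicit false

namespace Pool.Agent.Results.MP_a54059_lc.ReadKTimesPrograms

open Pool.Agent.H554R2.Sem Pool.Agent.H554R2.Coin Pool.Agent.H554R2.RK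

/-- For all `k` and `s` there is a constant `D` such that for all `n ≥ D` there are `m ≤ D`
functions `q j` of `n` Boolean variables with the following properties.

* Each `q j` is computed by a deterministic program with at most `D n` nodes, which on all inputs
  queries the same variables in the same order, each of them at most once.
* For all nondeterministic branching programs `P 1, ..., P s` with fewer than `2 ^ (n / D)` nodes
  in which every path from the start node queries every variable at most `k` times, and for every
  Boolean combination `g`, there is an input `x` for which the value of `g` on the truth values of
  `P i` accepts `x` is not the truth value of more than half of the `q j x` are `true`. -/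
theorem result (k s : ℕ) : ∃ D : ℕ, 0 < D ∧ ∀ n ≥ D, ∃ (m : ℕ) (q : Fin m → Pt n → Bool), m ≤ D ∧
    (∀ j, ∃ (U : BP (Fin n) Bool) (l : List (Fin n)), Fintype.card U.State ≤ D * n ∧ l.Nodup ∧
      ∀ x : Pt n, U.Comp x l (q j x)) ∧
    ∀ P : Fin s → NBP (Fin n), (∀ i, ReadK (P i) k) →
      (∀ i, Fintype.card (P i).State < 2 ^ (n / D)) → ∀ g : (Fin s → Prop) → Prop,
        ∃ x, ¬ (g (fun i => Acc (P i) x) ↔
          m < 2 * (Finset.univ.filter (fun j => q j x = true)).card) :=
  Pool.Agent.H554R2.RK.pp_final k s

end Pool.Agent.Results.MP_a54059_lc.ReadKTimesPrograms
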